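import Pool.Agent.H300R2.HWEuler
import Pool.Agent.H300R2.HWCount
import Pool.Agent.Y762.FinJ

/-!
# Critical zeros of the zeta functions of large subfields of cyclotomic fields, at bounded height

Let `L` be the `n`-th cyclotomic field, `F_j` finitely many subfields, and `X` the zero-dimensional scheme
`Spec ∏ 𝓞(F_j)[1/n]`, finite and etale over `ℤ[1/n]`; its Hasse-Weil L-function `L(0;X,s)` is the product of
the zeta functions of the `F_j` without the Euler factors at the primes dividing `n`.  We prove that at least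
the proportion `2 - c(1-a) - ε` of the zeros of this one function in `0 < Re s < 1`, `T < Im s ≤ 2T`, counted
with multiplicity, lies on the critical line, for all `T ≥ C (1 + √(log n) + (m - 1) (1 + log n)²)`, where
`m` is the largest of the indices `[L : F_j]`, if all indices are at most `(n T)^ζ`, or if `n` is a prime,
the indices are at most `(n T)^a` and the degrees of the `F_j` at least `1/ζ`; the constants `C`, `ζ` depend on
`a < 1` and `ε > 0` only.

Proof.  The points of `X` over finite fields are counted by the Dirichlet characters modulo `n` which are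
trivial on the fixing group of a field `F_j` (as in the starting file AbelianPoints), and the theorem on the
zeros of the L-functions of the characters in a coset of a subgroup (`Pool.Agent.Y762.coset_L`) applies.
-/

open Filter Topology NumberField IsCyclotomicExtension.Rat

set_option autoImplicit false
set_option maxHeartbeats 1000000

namespace Pool.Agent.Results.MP_7193be_nt.CyclotomicSubfields

/-- the term `#X(F_{p^k}) p^{-ks} / k`, `k = r + 1`, with `X(F_{p^k}) = Hom(A, F_{p^k})` -/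
noncomputable def term (A : Type) [CommRing A] (p : Nat.Primes) (s : ℂ) (r : ℕ) : ℂ :=
  (Nat.card (A →+* GaloisField p (r + 1)) : ℂ) *
    ((p : ℕ) : ℂ) ^ (-(((r + 1 : ℕ) : ℂ) * s)) / ((r + 1 : ℕ) : ℂ)

/-- the Euler factor `P₀(X(p)/F_p, p^{-s})⁻¹ = exp (∑_{k ≥ 1} #X(F_{p^k}) p^{-ks} / k)` at a prime which
does not divide `n` -/
noncomputable def factor (A : Type) [CommRing A] (n : ℕ) (s : ℂ) (p : Nat.Primes) : ℂ :=
  if (p : ℕ) ∣ n then 1 else Complex.exp (∑' r : ℕ, term A p s r)

/-- The Hasse-Weil L-function `L(0;X,s)` of the zero-dimensional scheme `X = Spec A[1/n]`: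
the product of the Euler factors over the primes `p` not dividing `n`. -/
noncomputable def HW (A : Type) [CommRing A] (n : ℕ) (s : ℂ) : ℂ := ∏' p : Nat.Primes, factor A n s p

/-- `Λ` is analytic in `ℂ ∖ {1}`, and for `Re s > 1` it is the convergent product `HW A n s` -/
def Continues (A : Type) [CommRing A] (n : ℕ) (Λ : ℂ → ℂ) : Prop :=
  (∀ s : ℂ, s ≠ 1 → AnalyticAt ℂ Λ s) ∧
  ∀ s : ℂ, 1 < s.re → (∀ p : Nat.Primes, ¬ (p : ℕ) ∣ n → Summable (term A p s)) ∧
    Multipliable (factor A n s) ∧ Λ s = HW A n s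

/-- the zeros of `F` in the open critical strip with `T₁ < Im s ≤ T₂` -/
def zeros (F : ℂ → ℂ) (T₁ T₂ : ℝ) : Set ℂ :=
  {s : ℂ | 0 < s.re ∧ s.re < 1 ∧ T₁ < s.im ∧ s.im ≤ T₂ ∧ F s = 0}

/-- the number of zeros in the open critical strip with `T₁ < Im s ≤ T₂`, with multiplicity -/
noncomputable def N (F : ℂ → ℂ) (T₁ T₂ : ℝ) : ℕ := ∑ᶠ s ∈ zeros F T₁ T₂, analyticOrderNatAt F s

/-- the number of zeros with `Re s = 1/2` and `T₁ < Im s ≤ T₂`, with multiplicity -/
noncomputable def N₀ (F : ℂ → ℂ) (T₁ T₂ : ℝ) : ℕ :=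
  ∑ᶠ s ∈ {s : ℂ | s ∈ zeros F T₁ T₂ ∧ s.re = 1 / 2}, analyticOrderNatAt F s

/-- the function of Montgomery and Taylor -/
noncomputable def c (h : ℝ) : ℝ := h / 2 + Real.cot (h / Real.sqrt 2) / Real.sqrt 2

/-- `Λ` has finitely many zeros in `0 < Re s < 1`, `T < Im s ≤ 2T`, at least `M` with multiplicity, and at
least the proportion `κ` of them has real part `1/2` -/
def Law (Λ : ℂ → ℂ) (T M κ : ℝ) : Prop :=
  (zeros Λ T (2 * T)).Finite ∧ M ≤ (N Λ T (2 * T) : ℝ) ∧
    κ * (N Λ T (2 * T) : ℝ) ≤ (N₀ Λ T (2 * T) : ℝ)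

section
variable {L : Type} [Field L] [NumberField L]

/-- the degree `[F : ℚ]` -/
noncomputable def deg (F : IntermediateField ℚ L) : ℝ := (Module.finrank ℚ F : ℝ)

/-- the index `[L : F]` -/
noncomputable def idx (F : IntermediateField ℚ L) : ℝ := (Module.finrank F L : ℝ)

/-- the height from which on the zeros are counted, up to the constant: `1 + √(log n) + ([L:F]-1)(1+log n)²` -/
noncomputable def low (n : ℕ) (F : IntermediateField ℚ L) : ℝ :=
  1 + Real.sqrt (Real.log n) + (idx F - 1) * (1 + Real.log n) ^ 2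

/-- the index is at most `(nT)^ζ`, or `n` is a prime and the degree at least `1/ζ` -/
def Large (n : ℕ) (ζ T : ℝ) (F : IntermediateField ℚ L) : Prop :=
  idx F ≤ (n * T) ^ ζ ∨ (n.Prime ∧ 1 / ζ ≤ deg F)

end

/-- `(T/2π) log(nT)`, the number of zeros of one Dirichlet L-function modulo `n`, up to lower order terms -/
noncomputable def count (n : ℕ) (T : ℝ) : ℝ := T / (2 * Real.pi) * Real.log (n * T)

lemma N_eq (F : ℂ → ℂ) (T₁ T₂ : ℝ) : N F T₁ T₂ = H300.HW.cnt F (H300.HW.strip T₁ T₂) := by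
  rw [← H300.HW.NN_eq]
  rfl

lemma N₀_eq (F : ℂ → ℂ) (T₁ T₂ : ℝ) : N₀ F T₁ T₂ = H300.HW.cnt F (H300.HW.line T₁ T₂) := by
  have h : {s : ℂ | s ∈ zeros F T₁ T₂ ∧ s.re = 1 / 2} =
      {s : ℂ | s ∈ H300.HW.line T₁ T₂ ∧ F s = 0} := by
    ext s
    simp only [zeros, H300.HW.line, Set.mem_ofPred_eq]
    constructor
    · rintro ⟨⟨-, -, h1, h2, h3⟩, h4⟩
      exact ⟨⟨h4, h1, h2⟩, h3⟩
    · rintro ⟨⟨h1, h2, h3⟩, h4⟩
      exact ⟨⟨by rw [h1]; norm_num, by rw [h1]; norm_num, h2, h3, h4⟩, h1⟩
  unfold N₀ H300.HW.cnt H370.mult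
  rw [h]

section
variable (n : ℕ) [NeZero n] (L : Type) [Field L] [NumberField L] [IsCyclotomicExtension {n} ℚ L]

/-- the subgroup of the residue classes attached to a subfield -/
noncomputable def HH (F : IntermediateField ℚ L) : Subgroup (ZMod n)ˣ :=
  F.fixingSubgroup.map (galEquivZMod n L).toMonoidHom

lemma card_HH (F : IntermediateField ℚ L) : Nat.card (HH n L F) = Module.finrank F L := by
  have : IsGalois ℚ L := IsCyclotomicExtension.isGalois {n} ℚ L
  have h1 : Nat.card (HH n L F) = Nat.card F.fixingSubgroup := by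
    refine Nat.card_congr (Equiv.symm ?_)
    exact (F.fixingSubgroup.equivMapOfInjective _ (galEquivZMod n L).injective).toEquiv
  rw [h1]
  exact IsGalois.card_fixingSubgroup_eq_finrank F

lemma mem_coset_one (F : IntermediateField ℚ L) (χ : DirichletCharacter ℂ n) :
    χ ∈ Pool.Agent.Y762.coset (HH n L F) 1 ↔ χ ∈ H300.HW.YY n L F := by
  rw [Pool.Agent.Y762.mem_coset, H300.HW.mem_YY]
  constructor
  · intro h σ hσ
    have h1 := h (galEquivZMod n L σ) ⟨σ, hσ, rfl⟩
    rw [h1]
    exact MulChar.one_apply_coe _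
  · rintro h x ⟨σ, hσ, rfl⟩
    have h1 := h σ hσ
    refine Eq.trans h1 ?_
    symm
    exact MulChar.one_apply_coe _

open Classical in
lemma sum_YY (F : IntermediateField ℚ L) (f : DirichletCharacter ℂ n → ℝ) :
    ∑ χ ∈ Pool.Agent.Y762.coset (HH n L F) 1, f χ =
      ∑ χ : H300.HW.YY n L F, f (χ : DirichletCharacter ℂ n) :=
  Finset.sum_subtype _ (fun χ => mem_coset_one n L F χ) f

lemma card_coset_YY (F : IntermediateField ℚ L) :
    (Pool.Agent.Y762.coset (HH n L F) 1).card = Module.finrank ℚ F := by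
  classical
  have h1 : ((Pool.Agent.Y762.coset (HH n L F) 1).card : ℝ) =
      (Fintype.card (H300.HW.YY n L F) : ℝ) := by
    have := sum_YY n L F (fun _ => 1)
    simpa using this
  have h2 : (Pool.Agent.Y762.coset (HH n L F) 1).card = Fintype.card (H300.HW.YY n L F) := by
    exact_mod_cast h1
  have : IsGalois ℚ L := IsCyclotomicExtension.isGalois {n} ℚ L
  rw [h2, ← Nat.card_eq_fintype_card, H300.HW.card_YY]
  have h3 := Subgroup.card_mul_index F.fixingSubgroup
  rw [IsGalois.card_fixingSubgroup_eq_finrank F, IsGalois.card_aut_eq_finrank ℚ L,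
    ← Module.finrank_mul_finrank ℚ F L, mul_comm (Module.finrank ℚ F)] at h3
  exact Nat.eq_of_mul_eq_mul_left Module.finrank_pos h3

end

/-- the zeros of the L-function of `∏ 𝓞(F_j)[1/n]`, from the zeros of the Dirichlet L-functions -/
lemma transfer (n : ℕ) [NeZero n] (L : Type) [Field L] [NumberField L]
    [IsCyclotomicExtension {n} ℚ L] (ι : Type) [Fintype ι] (F : ι → IntermediateField ℚ L)
    (T κ B : ℝ) (hT1 : 1 ≤ T)
    (h : ∀ j, κ * ∑ χ ∈ Pool.Agent.Y762.coset (HH n L (F j)) 1,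
          (H370.NN (DirichletCharacter.LFunction χ) T (2 * T) : ℝ) ≤
        ∑ χ ∈ Pool.Agent.Y762.coset (HH n L (F j)) 1,
          (H370.Ns (DirichletCharacter.LFunction χ) T (2 * T) : ℝ))
    (hB : ∀ j, B * ((Pool.Agent.Y762.coset (HH n L (F j)) 1).card : ℝ) ≤
      ∑ χ ∈ Pool.Agent.Y762.coset (HH n L (F j)) 1,
          (H370.NN (DirichletCharacter.LFunction χ) T (2 * T) : ℝ)) :
    (zeros (H300.HW.LL n L F) T (2 * T)).Finite ∧
    B * ∑ j, (Module.finrank ℚ (F j) : ℝ) ≤ (N (H300.HW.LL n L F) T (2 * T) : ℝ) ∧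
    κ * (N (H300.HW.LL n L F) T (2 * T) : ℝ) ≤ (N₀ (H300.HW.LL n L F) T (2 * T) : ℝ) := by
  classical
  have hT0 : 0 < T := by linarith
  set f : (Σ j, H300.HW.YY n L (F j)) → ℂ → ℂ :=
    fun x => DirichletCharacter.LFunction (x.2 : DirichletCharacter ℂ n) with hf
  have hLL : H300.HW.LL n L F = fun z => ∏ x, f x z := by
    ext z
    unfold H300.HW.LL
    rfl
  have hfin : ∀ x, (H370.zset (f x) T (2 * T)).Finite := fun x =>
    Pool.Agent.TH243.CYC.finite_zset _ _ _ hT1
  have hstrip : ∀ x, {s : ℂ | s ∈ H300.HW.strip T (2 * T) ∧ f x s = 0} =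
      H370.zset (f x) T (2 * T) := by
    intro x
    ext s
    simp only [H370.zset, H300.HW.strip, Set.mem_ofPred_eq, and_assoc]
  have hline : ∀ x, {s : ℂ | s ∈ H300.HW.line T (2 * T) ∧ f x s = 0} ⊆
      H370.zset (f x) T (2 * T) := by
    rintro x s ⟨⟨h1, h2, h3⟩, h4⟩
    exact ⟨by rw [h1]; norm_num, by rw [h1]; norm_num, h2, h3, h4⟩
  have han : ∀ x, ∀ s : ℂ, 0 < s.im → AnalyticAt ℂ (f x) s := by
    intro x s hs
    rw [hf]
    simp only
    rw [← H300.HW.LF_eq n]
    exact H385.LF_analyticAt n _ (H300.HW.upper_ne_one hs)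
  have hord : ∀ x, ∀ s : ℂ, 0 < s.im → analyticOrderAt (f x) s ≠ ⊤ :=
    fun x s hs => H300.HW.order_ne_top n _ hs
  have hN : N (fun z => ∏ x, f x z) T (2 * T) =
      ∑ x, H300.HW.cnt (f x) (H300.HW.strip T (2 * T)) := by
    rw [N_eq]
    refine H300.HW.cnt_prod Finset.univ f (fun x _ s hs => han x s ?_)
      (fun x _ s hs => hord x s ?_) (fun x _ => ?_)
    · exact hT0.trans hs.2.2.1
    · exact hT0.trans hs.2.2.1
    · rw [hstrip x]
      exact hfin x
  have hN0 : N₀ (fun z => ∏ x, f x z) T (2 * T) =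
      ∑ x, H300.HW.cnt (f x) (H300.HW.line T (2 * T)) := by
    rw [N₀_eq]
    refine H300.HW.cnt_prod Finset.univ f (fun x _ s hs => han x s ?_)
      (fun x _ s hs => hord x s ?_) (fun x _ => ?_)
    · exact hT0.trans hs.2.1
    · exact hT0.trans hs.2.1
    · exact (hfin x).subset (hline x)
  have hNs : (N (H300.HW.LL n L F) T (2 * T) : ℝ) = ∑ j, ∑ χ ∈ Pool.Agent.Y762.coset (HH n L (F j)) 1,
      (H370.NN (DirichletCharacter.LFunction χ) T (2 * T) : ℝ) := by
    rw [hLL, hN]
    push_cast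
    rw [Fintype.sum_sigma]
    refine Finset.sum_congr rfl fun j _ => ?_
    rw [sum_YY]
    refine Finset.sum_congr rfl fun χ _ => ?_
    rw [← H300.HW.NN_eq]
  have hN0s : ∑ j, ∑ χ ∈ Pool.Agent.Y762.coset (HH n L (F j)) 1,
      (H370.Ns (DirichletCharacter.LFunction χ) T (2 * T) : ℝ) ≤
      (N₀ (H300.HW.LL n L F) T (2 * T) : ℝ) := by
    rw [hLL, hN0]
    push_cast
    rw [Fintype.sum_sigma]
    refine Finset.sum_le_sum fun j _ => ?_
    rw [sum_YY]
    refine Finset.sum_le_sum fun χ _ => ?_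
    exact_mod_cast H300.HW.Ns_le (f ⟨j, χ⟩) T (2 * T) (hfin ⟨j, χ⟩)
  refine ⟨?_, ?_, ?_⟩
  · rw [hLL]
    have h1 : zeros (fun z => ∏ x, f x z) T (2 * T) ⊆ ⋃ x, H370.zset (f x) T (2 * T) := by
      rintro s ⟨h1, h2, h3, h4, h5⟩
      obtain ⟨x, -, hx⟩ := Finset.prod_eq_zero_iff.mp h5
      exact Set.mem_iUnion.mpr ⟨x, h1, h2, h3, h4, hx⟩
    exact (Set.finite_iUnion hfin).subset h1
  · rw [hNs, Finset.mul_sum]
    refine Finset.sum_le_sum fun j _ => ?_
    have := hB j
    rwa [card_coset_YY] at this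
  · rw [hNs, Finset.mul_sum]
    exact (Finset.sum_le_sum fun j _ => h j).trans hN0s

/-- for a prime modulus only the trivial character is imprimitive -/
lemma prime_cond (p : ℕ) [NeZero p] (hp : p.Prime) (S : Finset (DirichletCharacter ℂ p)) :
    ∑ χ ∈ S, (Real.log p - Real.log χ.conductor) ≤ Real.log p := by
  classical
  have hp1 : (1:ℝ) ≤ p := by exact_mod_cast hp.one_lt.le
  have h0 : 0 ≤ Real.log p := Real.log_nonneg hp1
  have h1 : ∀ χ : DirichletCharacter ℂ p, χ ≠ 1 → χ.conductor = p := by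
    intro χ hχ
    rcases (Nat.dvd_prime hp).mp χ.conductor_dvd_level with h | h
    · exact absurd ((DirichletCharacter.eq_one_iff_conductor_eq_one).mpr h) hχ
    · exact h
  have h2 : ∀ χ ∈ S, (Real.log p - Real.log χ.conductor) ≤ if χ = 1 then Real.log p else 0 := by
    intro χ _
    split_ifs with h
    · have : (1:ℝ) ≤ (χ.conductor : ℝ) := by
        exact_mod_cast Nat.one_le_iff_ne_zero.mpr χ.conductor_ne_zero
      linarith [Real.log_nonneg this]
    · rw [h1 χ h, sub_self]
  refine (Finset.sum_le_sum h2).trans ?_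
  rw [Finset.sum_ite_eq']
  split_ifs
  · exact le_rfl
  · exact h0

theorem result :
    -- the general theorem
    (∀ a ε : ℝ, 0 ≤ a → a < 1 → 0 < ε → ∃ C ζ : ℝ, 1 ≤ C ∧ 0 < ζ ∧
      ∀ (n : ℕ) [NeZero n] (L : Type) [Field L] [NumberField L] [IsCyclotomicExtension {n} ℚ L]
        (ι : Type) [Fintype ι] (F : ι → IntermediateField ℚ L), ∃ Λ : ℂ → ℂ,
        Continues (∀ j, 𝓞 (F j)) n Λ ∧
        ∀ T : ℝ, 1 ≤ T →
          (∀ j, C * low n (F j) ≤ T ∧ idx (F j) ≤ (n * T) ^ a ∧ Large n ζ T (F j)) →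
          Law Λ T ((1 - ε) * count n T * ∑ j, deg (F j)) (2 - c (1 - a) - ε)) ∧
    -- subfields of small index: more than 67.25 per cent
    (∃ C ζ : ℝ, 1 ≤ C ∧ 0 < ζ ∧
      ∀ (n : ℕ) [NeZero n] (L : Type) [Field L] [NumberField L] [IsCyclotomicExtension {n} ℚ L]
        (F : IntermediateField ℚ L), ∃ Λ : ℂ → ℂ, Continues (𝓞 F) n Λ ∧
        ∀ T : ℝ, 1 ≤ T → C * low n F ≤ T → idx F ≤ (n * T) ^ ζ →
          Law Λ T (0.99 * count n T * deg F) 0.6725) := by
  classical
  constructor
  · intro a ε ha0 ha1 hε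
    obtain ⟨C, ζ, hC, hζ, H⟩ := Pool.Agent.Y762.coset_L a ε ha0 ha1 hε
    refine ⟨C, ζ, hC, hζ, ?_⟩
    intro n _ L _ _ _ ι _ F
    refine ⟨H300.HW.LL n L F, ⟨?_, ?_⟩, ?_⟩
    · intro s hs
      unfold H300.HW.LL
      refine Finset.analyticAt_fun_prod _ (fun x _ => ?_)
      rw [← H300.HW.LF_eq n]
      exact H385.LF_analyticAt n _ hs
    · intro s hs
      have h := H300.HW.hasProd_LL n L F hs
      exact ⟨fun p hp => (H300.HW.localZeta_pi n _ F p hp (by linarith)).1, h.multipliable,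
        h.tprod_eq.symm⟩
    · intro T hT1 hcond
      have hn1 : (1:ℝ) ≤ n := by exact_mod_cast (NeZero.one_le : 1 ≤ n)
      have hlog : 0 ≤ Real.log (n * T) := Real.log_nonneg (one_le_mul_of_one_le_of_one_le hn1 hT1)
      have hj : ∀ j, Pool.Agent.Y762.Concl (Pool.Agent.Y762.coset (HH n L (F j)) 1) T
          (Pool.Agent.Y762.cH (1 - a) + ε) ε := by
        intro j
        obtain ⟨k1, k2, k3⟩ := hcond j
        refine H n (HH n L (F j)) 1 T (by rw [card_HH]; exact k1) (by rw [card_HH]; exact k2) ?_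
        rcases k3 with k3 | ⟨hp, k3⟩
        · left; rw [card_HH]; exact k3
        · right
          refine (prime_cond n hp _).trans ?_
          rw [card_coset_YY]
          have e1 : 1 ≤ ζ * (Module.finrank ℚ (F j) : ℝ) := by
            rwa [div_le_iff₀ hζ, mul_comm] at k3
          have e2 : Real.log n ≤ Real.log (n * T) :=
            Real.log_le_log (by linarith) (le_mul_of_one_le_right (by linarith) hT1)
          calc Real.log n ≤ 1 * Real.log (n * T) := by linarith
            _ ≤ (ζ * (Module.finrank ℚ (F j) : ℝ)) * Real.log (n * T) :=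
              mul_le_mul_of_nonneg_right e1 hlog
            _ = _ := by ring
      have h1 := transfer n L ι F T (2 - (Pool.Agent.Y762.cH (1 - a) + ε))
        ((1 - ε) * (T / (2 * Real.pi) * Real.log (n * T))) hT1 (fun j => (hj j).1)
        (fun j => (hj j).2.2)
      obtain ⟨q1, q2, q3⟩ := h1
      refine ⟨q1, q2, le_trans (le_of_eq ?_) q3⟩
      unfold Pool.Agent.Y762.cH c
      ring
  · obtain ⟨C, ζ, hC, hζ, H⟩ := Pool.Agent.Y762.coset_small
    refine ⟨C, ζ, hC, hζ, ?_⟩
    intro n _ L _ _ _ F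
    refine ⟨H300.HW.LL n L (fun _ : Unit => F), ⟨?_, ?_⟩, ?_⟩
    · intro s hs
      unfold H300.HW.LL
      refine Finset.analyticAt_fun_prod _ (fun x _ => ?_)
      rw [← H300.HW.LF_eq n]
      exact H385.LF_analyticAt n _ hs
    · intro s hs
      have h := H300.HW.hasProd_LL n L (fun _ : Unit => F) hs
      have e1 : ∀ (p : Nat.Primes) (r : ℕ), Nat.card ((∀ _ : Unit, 𝓞 F) →+* GaloisField p (r + 1)) =
          Nat.card (𝓞 F →+* GaloisField p (r + 1)) := by
        intro p r
        refine Nat.card_congr ?_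
        exact
          { toFun := fun φ => φ.comp (RingEquiv.piUnique (fun _ : Unit => 𝓞 F)).symm.toRingHom
            invFun := fun φ => φ.comp (RingEquiv.piUnique (fun _ : Unit => 𝓞 F)).toRingHom
            left_inv := fun φ => RingHom.ext fun x =>
              congrArg φ ((RingEquiv.piUnique (fun _ : Unit => 𝓞 F)).symm_apply_apply x)
            right_inv := fun φ => RingHom.ext fun x =>
              congrArg φ ((RingEquiv.piUnique (fun _ : Unit => 𝓞 F)).apply_symm_apply x) }
      have e2 : ∀ (p : Nat.Primes), term (𝓞 F) p s = term (∀ _ : Unit, 𝓞 F) p s := by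
        intro p
        funext r
        unfold term
        rw [e1]
      have e3 : factor (𝓞 F) n s = factor (∀ _ : Unit, 𝓞 F) n s := by
        funext p
        unfold factor
        rw [e2]
      refine ⟨fun p hp => ?_, ?_, ?_⟩
      · rw [e2]
        exact (H300.HW.localZeta_pi n L (fun _ : Unit => F) p hp (by linarith)).1
      · rw [e3]
        exact h.multipliable
      · unfold HW
        rw [e3]
        exact h.tprod_eq.symm
    · intro T hT1 hT hm
      have hj : Pool.Agent.Y762.Concl (Pool.Agent.Y762.coset (HH n L F) 1) T 1.3275 (1 / 100) :=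
        H n (HH n L F) 1 T (by rw [card_HH]; exact hT) (by rw [card_HH]; exact hm)
      have h1 := transfer n L Unit (fun _ => F) T (2 - 1.3275)
        ((1 - 1 / 100) * (T / (2 * Real.pi) * Real.log (n * T))) hT1 (fun j => hj.1)
        (fun j => hj.2.2)
      obtain ⟨q1, q2, q3⟩ := h1
      refine ⟨q1, le_trans (le_of_eq ?_) q2, le_trans (le_of_eq ?_) q3⟩
      · simp only [Finset.univ_unique, Finset.sum_const, Finset.card_singleton, one_smul, count, deg]
        ring
      · ring

end Pool.Agent.Results.MP_7193be_nt.CyclotomicSubfields
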