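import Pool.Agent.Q28.HW.Fin

/-!
# Zeros of the derivatives for all Hasse-Weil L-functions of GL(2) type in odd degree

Let `X` be projective and smooth over `ℤ[1/N]` and `i` odd.  `Pool.Agent.Q28.HW.Cohomology i` is what enters of
`V = H^i(X)` in the Hasse-Weil L-function and its gamma factor: the Hodge numbers `h^{q, i-q}`, the polynomials
`P_p(T) ∈ ℤ[T]` (`P_i(X(p), T)` for `p ∤ N`, `det(1 - Frob_p T | H^i(X)^{I_p})` for `p ∣ N`) with their constant
terms and degrees and the weights: the roots have absolute value `p^{-i/2}` for `p ∤ N` (Deligne) and at least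
`p^{-i/2}` for `p ∣ N`.

`V` is of GL(2) type (`ModularType`) if its L-function is a product of L-functions of newforms: there are newforms
`f_1, ..., f_m` of any weights `k_j ≥ 2`, levels `N_j` and nebentypus `ψ_j` and integers `t_j`,
`k_j + 2 t_j = i + 1`, such that for all primes `p`
`P_p(T) = ∏_j (1 - a_j(p) p^{t_j} T + ψ_j(p) p^i T²)`,
and the Hodge numbers `h^{q, i-q}`, `2 q < i`, are the numbers of the `j` with `t_j = q`.  Examples: `H^1` of the
modular curves and of all abelian varieties over `ℚ` of GL(2) type and their products, all odd degrees for the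
powers of the elliptic curves over `ℚ` with complex multiplication, `H^3` of the rigid Calabi-Yau threefolds
over `ℚ`.

Part (d) of the problem (all zeros of `Λ` are on the line `Re s = (i+1)/2`) implies that all zeros of all
derivatives of `Λ` are on this line.  We prove, unconditionally, that for every `n` the `n`-th derivative of `Λ`
has at least the proportion `1 - C e^{-c n}` of its zeros with imaginary part in `(0, T]` on the line and
simple, for ALL `T`; the number of the others is at most `C e^{-c n} T log T`.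

The starting result `UniformDerivatives` of this problem treats the zeros at the heights where `n` is large
compared with the logarithm of the conductor (all of them are on the line); here `n` is fixed and `T → ∞`.

Proof.  The axioms `Frm` of the starting modules `Pool.Agent.Y671.GL` (project GD2: mollified mean squares of GL(2)
L-functions at the scale `1 / log T`) are checked for newforms of any weight and nebentypus; the Ramanujan
bound is deduced from the weights of `V`.
-/

set_option autoImplicit false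

open UpperHalfPlane MatrixGroups CongruenceSubgroup
open scoped ComplexConjugate

namespace Pool.Agent.Results.MP_7193be_nt.DerivativesDensity

open Pool.Agent.Q28.HW (Cohomology ModularType IsHasseWeil IsCompleted)

/-- The zeros of the `n`-th derivative of `Λ` with imaginary part in `(0, T]`. -/
def Zer (Λ : ℂ → ℂ) (n : ℕ) (T : ℝ) : Set ℂ := {s | iteratedDeriv n Λ s = 0 ∧ 0 < s.im ∧ s.im ≤ T}

/-- Those of them which are off the line `Re s = (i+1)/2` or multiple. -/
def Exc (i : ℕ) (Λ : ℂ → ℂ) (n : ℕ) (T : ℝ) : Set ℂ :=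
  {s | s ∈ Zer Λ n T ∧ (s.re ≠ ((i : ℝ) + 1) / 2 ∨ iteratedDeriv (n + 1) Λ s = 0)}

/-- The number of points of `B`, each counted with its multiplicity as a zero of `g`. -/
noncomputable def num (g : ℂ → ℂ) (B : Set ℂ) : ℕ := ∑ᶠ s ∈ B, analyticOrderNatAt g s

/-- **Main theorem.** Let `V = H^i(X)`, `i` odd, be of GL(2) type, with the newforms `f_1, ..., f_m`, `m ≥ 1`.
The Hasse-Weil L-function `L` and the completed function `Λ` exist, are entire and unique,
`Λ(i + 1 - s) = ± Λ(s)`, and there are `c, C > 0` such that for all `n` and `T` the `n`-th derivative of `Λ`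
has finitely many zeros with imaginary part in `(0, T]`, at most the proportion `C e^(-c n)` of them are
off the line `Re s = (i+1)/2` or multiple, and at most `C e^(-c n) T log T` if `T ≥ 2`; all counted with
multiplicity. -/
theorem result (i : ℕ) (V : Cohomology i) (m : ℕ) (hm : 1 ≤ m) (N k t : Fin m → ℕ) [∀ j, NeZero (N j)]
    (ψ : (j : Fin m) → DirichletCharacter ℂ (N j))
    (f : (j : Fin m) → CuspForm (Gamma1 (N j) : Subgroup (GL (Fin 2) ℝ)) (k j : ℤ))
    (h : ModularType V N k t ψ f) :
    ∃ L Λ : ℂ → ℂ, IsHasseWeil V L ∧ (∀ L', IsHasseWeil V L' → L' = L) ∧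
      IsCompleted V (∏ j, N j) L Λ ∧ (∀ Λ', IsCompleted V (∏ j, N j) L Λ' → Λ' = Λ) ∧
      (∃ ε : ℝ, (ε = 1 ∨ ε = -1) ∧ ∀ s : ℂ, Λ (i + 1 - s) = ε * Λ s) ∧
      (∀ (n : ℕ) (T : ℝ), (Zer Λ n T).Finite) ∧
      ∃ c C : ℝ, 0 < c ∧ 0 < C ∧
        (∀ (n : ℕ) (T : ℝ), (num (iteratedDeriv n Λ) (Exc i Λ n T) : ℝ) ≤
          C * Real.exp (-(c * n)) * num (iteratedDeriv n Λ) (Zer Λ n T)) ∧
        ∀ (n : ℕ) (T : ℝ), 2 ≤ T → (num (iteratedDeriv n Λ) (Exc i Λ n T) : ℝ) ≤
          C * Real.exp (-(c * n)) * T * Real.log T := by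
  obtain ⟨L, Λ, Λ0, H, X, Z, v, c, hL, hΛ, hc, he, hfe, hcore⟩ := Pool.Agent.Q28.HW.hasse hm h
  have hA : (1 : ℝ) ≤ ((∏ j, N j : ℕ) : ℝ) := by
    exact_mod_cast Finset.one_le_prod' fun i _ => Nat.one_le_iff_ne_zero.2 (NeZero.ne (N i))
  obtain ⟨h1, b, C, hb, hC, h2, h3⟩ := Pool.Agent.Q28.HW.der_of hm hA hcore hc ((i : ℝ) / 2) (Λ := Λ) (fun s => by
    rw [he]
    push_cast
    rfl)
  have e : (1 / 2 + (i : ℝ) / 2) = ((i : ℝ) + 1) / 2 := by ring
  rw [e] at h2 h3
  exact ⟨L, Λ, hL, fun L' h' => Pool.Agent.Q28.HW.hw_unique hL h', hΛ,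
    fun Λ' h' => Pool.Agent.Q28.HW.completed_unique hΛ h', hfe, h1, b, C, hb, hC,
    fun n T => h2 n T, fun n T hT => h3 n T hT⟩

end Pool.Agent.Results.MP_7193be_nt.DerivativesDensity
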