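import Pool.Agent.Q12.HW.Lag

/-!
# The Laguerre inequalities for all Hasse-Weil L-functions, with one constant

Let `X` be projective and smooth over `ℤ[1/N]` and let `Λ` be the completed L-function `Λ_A(i; X, s)`, for
even `i` multiplied by `((s - i/2) (s - i/2 - 1))^r` if it has poles of order `r` at `s = i/2`, `i/2 + 1`.
For real `t` let

  `|Λ((i+1)/2 + √-1 t + x)|² = ∑ L_n(t) x^(2n)`   (`x` real).

Part (d) of the problem for `(X, i)` (all zeros of `Λ` are on the line `Re s = (i+1)/2`) holds if and only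
if `L_n(t) ≥ 0` for all `n` and all real `t`, the generalised Laguerre inequalities.  Let
`𝔠(t) = A ∏ (1 + |μ + √-1 t|)` be the analytic conductor at height `t` (the product over the parameters `μ`
of the gamma factors `Γ_ℝ`) and `b_i` the Betti number.  We prove that for every `η > 0` there is ONE
constant `C₀`, the same for all `N`, `X` and `i` (so for all Betti numbers, Hodge numbers and conductors),
such that

  `L_n(t) > 0` for all `n ≥ (1/4 + η) log 𝔠(t) + C₀ b_i`,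

so that part (d) for `(X, i)` is equivalent to the inequalities `L_n(t) ≥ 0` for the remaining `(n, t)`,
finitely many `n` for every `t`.  This is proved

* (I) for all `X` and `i` for which the continuation and the functional equation (parts (a), (b)) are known
  or assumed: `Λ` is entire, of finite order, and `Λ(s) = ± Λ(i + 1 - s)`.  Here we assume that the
  Frobenius eigenvalues on the inertia invariants at the primes `p ∣ N` have absolute value at most
  `p^{i/2}` (a part of the weight monodromy conjecture, known for example for curves, surfaces, abelian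
  varieties and complete intersections); if they are only known to be at most `p^{(i+w)/2}`, `0 ≤ w ≤ 1`,
  then `1/4` is replaced by `(1+w)/4`;
* (II) without any hypothesis for `X = E^g`, `E : y² = x³ - x`, for all `g` and all odd `i < 2g`.

In (I) `X` enters through the following data (`Cohomology i w`), which by Deligne's theorem have the
properties required: the polynomials `P_i(X(p), T) ∈ ℤ[T]` for `p ∤ N`, with constant term `1`, degree
`b_i` and reciprocal roots of absolute value `p^{i/2}`; the Hodge numbers; and polynomials for the primes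
`p ∣ N`, of degree at most `b_i`.

Proof.  `L_n(t)` is the Taylor coefficient of `z ↦ Λ(c + √-1 t + z) conj Λ(c + √-1 t + conj z)`,
`c = (i+1)/2`, a Cauchy integral along a circle through a real saddle point.  It is evaluated uniformly in
the degree in the starting modules `Pool.Agent.TH803.LU`, for functions of the class `UL`; we show that
all functions in (I) belong to this class, with the sharp half-plane.  The L-functions of `E^g` are
products of Hecke L-functions.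
-/

set_option autoImplicit false

namespace Pool.Agent.Results.MP_7193be_nt.LaguerreAllVarieties

open Complex Polynomial
open scoped ComplexConjugate

/-! ### The data of a Hasse-Weil L-function -/

/-- The Betti number `b_i = 2 ∑_{p < q, p + q = i} h^{p,q} + h^{m,+} + h^{m,-}` (the last two for
`i = 2m`), where `hodge p = h^{p, i-p}`. -/
def bettiOf (i : ℕ) (hodge : ℕ → ℕ) (plus minus : ℕ) : ℕ :=
  2 * ∑ p ∈ Finset.range ((i + 1) / 2), hodge p + (if Even i then plus + minus else 0)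

/-- What enters of the cohomology `H^i` of a projective smooth scheme `X` over `ℤ[1/N]` in the Hasse-Weil
L-function `L(i; X, s)` and its gamma factor; the eigenvalues at the primes `p ∣ N` are at most
`p^{(i+w)/2}`. -/
structure Cohomology (i : ℕ) (w : ℝ) where
  /-- the integer `N`: good reduction for `p ∤ N` -/
  N : ℕ
  /-- the Hodge numbers `hodge p = h^{p, i - p}` for `2 p < i` -/
  hodge : ℕ → ℕ
  /-- `h^{m,+}` for `i = 2m` -/
  plus : ℕ
  /-- `h^{m,-}` for `i = 2m` -/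
  minus : ℕ
  /-- `P_i(X(p), T)` for `p ∤ N`, and `det(1 - Frob_p T | H^i(X)^{I_p})` for `p ∣ N` -/
  P : ℕ → ℤ[X]
  N_pos : 0 < N
  betti_pos : 0 < bettiOf i hodge plus minus
  const : ∀ p : ℕ, p.Prime → (P p).coeff 0 = 1
  degree_good : ∀ p : ℕ, p.Prime → ¬ p ∣ N → (P p).natDegree = bettiOf i hodge plus minus
  degree_bad : ∀ p : ℕ, p.Prime → p ∣ N → (P p).natDegree ≤ bettiOf i hodge plus minus
  roots_good : ∀ p : ℕ, p.Prime → ¬ p ∣ N → ∀ z : ℂ, aeval z (P p) = 0 →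
    ‖z‖ = (p : ℝ) ^ (-((i : ℝ) / 2))
  roots_bad : ∀ p : ℕ, p.Prime → p ∣ N → ∀ z : ℂ, aeval z (P p) = 0 →
    (p : ℝ) ^ (-(((i : ℝ) + w) / 2)) ≤ ‖z‖

namespace Cohomology

variable {i : ℕ} {w : ℝ} (V : Cohomology i w)

/-- the Betti number `b_i` -/
def betti : ℕ := bettiOf i V.hodge V.plus V.minus

/-- the L-function (with the factors at the primes dividing `N`) in the half-plane of convergence -/
noncomputable def L (s : ℂ) : ℂ :=
  ∏' p : Nat.Primes, (aeval (((p : ℕ) : ℂ) ^ (-s)) (V.P p))⁻¹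

/-- the gamma factor `Γ_i(s) = ∏_{p<q} Γ_ℂ(s-p)^{h^{p,q}} Γ_ℝ(s-m)^{h^{m,+}} Γ_ℝ(s-m+1)^{h^{m,-}}`, the last
two factors for `i = 2m` only -/
noncomputable def gammaFactor (s : ℂ) : ℂ :=
  (∏ p ∈ Finset.range ((i + 1) / 2), Gammaℂ (s - p) ^ V.hodge p) *
    (if Even i then Gammaℝ (s - (i : ℂ) / 2) ^ V.plus * Gammaℝ (s - (i : ℂ) / 2 + 1) ^ V.minus
      else 1)

/-- the analytic conductor at height `y`, for the conductor `A` -/
noncomputable def analyticConductor (A y : ℝ) : ℝ :=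
  A * ((∏ p ∈ Finset.range ((i + 1) / 2), ((1 + ‖(y : ℂ) * I + ((i : ℂ) / 2 - p)‖) *
    (1 + ‖(y : ℂ) * I + ((i : ℂ) / 2 - p + 1)‖)) ^ V.hodge p) *
    (if Even i then (1 + ‖(y : ℂ) * I + 0‖) ^ V.plus * (1 + ‖(y : ℂ) * I + 1‖) ^ V.minus else 1))

/-- `Λ` is the completed L-function `Λ_A(i; X, s)` (multiplied by `((s - i/2) (s - i/2 - 1))^r`), and it
has the properties (a), (b): it is entire, of finite order, and `Λ(s) = ± Λ(i + 1 - s)`. -/
structure Continued (A : ℝ) (r : ℕ) (Λ : ℂ → ℂ) : Prop where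
  one_le : 1 ≤ A
  r_le : r ≤ V.betti
  entire : Differentiable ℂ Λ
  order : ∃ c ρ : ℝ, ∀ s : ℂ, ‖Λ s‖ ≤ Real.exp (c * (1 + ‖s‖) ^ ρ)
  fe : ∃ ε : ℝ, (ε = 1 ∨ ε = -1) ∧ ∀ s : ℂ, Λ s = ε * Λ (i + 1 - s)
  eq : ∃ σ : ℝ, ∀ s : ℂ, σ ≤ s.re → Λ s = ((s - (i : ℂ) / 2) * (s - (i : ℂ) / 2 - 1)) ^ r *
    ((A : ℂ) ^ (s / 2) * V.gammaFactor s * V.L s)

end Cohomology

/-! ### The powers of the curve `y² = x³ - x` -/

/-- `a_p`: the prime `p` minus the number of the pairs `(x, y)` modulo `p` with `y² = x³ - x` -/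
noncomputable def a (p : ℕ) : ℤ :=
  (p : ℤ) - (((Finset.range p ×ˢ Finset.range p).filter
    (fun xy : ℕ × ℕ => (p : ℤ) ∣ (xy.2 : ℤ) ^ 2 - ((xy.1 : ℤ) ^ 3 - (xy.1 : ℤ)))).card : ℤ)

/-- `α p`, `β p` are the roots of `T² - a_p T + p` for every prime `p ≠ 2` -/
def FrobeniusRoots (α β : ℕ → ℂ) : Prop :=
  ∀ p : ℕ, p.Prime → p ≠ 2 → α p + β p = (a p : ℂ) ∧ α p * β p = p

/-- `P_i(X(p), p^{-s})` for `X = E^g`: the product of `(1 - α^j β^(i-j) p^(-s))` over `0 ≤ j ≤ i`
with the multiplicities `C(g, j) C(g, i-j)` -/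
noncomputable def P (g i : ℕ) (α β : ℂ) (p : ℕ) (s : ℂ) : ℂ :=
  ∏ j ∈ Finset.range (i + 1),
    (1 - α ^ j * β ^ (i - j) * (p : ℂ) ^ (-s)) ^ (g.choose j * g.choose (i - j))

/-- `L` is the continuation of `L(i; E^g, s) = ∏_{p ≠ 2} P_i(X(p), p^{-s})⁻¹` to an entire
function -/
def IsHasseWeil (g i : ℕ) (L : ℂ → ℂ) : Prop :=
  Differentiable ℂ L ∧ ∀ α β : ℕ → ℂ, FrobeniusRoots α β → ∀ s : ℂ, 1 + (i : ℝ) / 2 < s.re →
    HasProd (fun p : {p : ℕ // p.Prime ∧ p ≠ 2} => (P g i (α p) (β p) p s)⁻¹) (L s)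

/-- the conductor `A = 32^N`, `N = ∑_{p < q, p + q = i} h^{p,q}`, `h^{p,q} = C(g, p) C(g, q)` -/
noncomputable def A (g i : ℕ) : ℝ :=
  32 ^ (∑ p ∈ Finset.range ((i + 1) / 2), g.choose p * g.choose (i - p))

/-- the Gamma factor `Γ_i(s) = ∏_{p < q, p + q = i} Γ_ℂ(s - p)^{h^{p,q}}`, `h^{p,q} = C(g, p) C(g, q)`;
here `Γ_ℂ(s) = Γ_ℝ(s) Γ_ℝ(s + 1)` -/
noncomputable def gammaFactor (g i : ℕ) (s : ℂ) : ℂ :=
  ∏ p ∈ Finset.range ((i + 1) / 2), Gammaℂ (s - p) ^ (g.choose p * g.choose (i - p))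

/-- the analytic conductor at height `y`: `A ∏_{p<q} ((1 + |i/2 - p + √-1 y|)
(1 + |i/2 - p + 1 + √-1 y|))^{h^{p,q}}` -/
noncomputable def analyticConductor (g i : ℕ) (y : ℝ) : ℝ :=
  A g i * ∏ p ∈ Finset.range ((i + 1) / 2),
    ((1 + ‖(y : ℂ) * I + ((i : ℂ) / 2 - p)‖) * (1 + ‖(y : ℂ) * I + ((i : ℂ) / 2 - p + 1)‖)) ^
      (g.choose p * g.choose (i - p))

/-- `Λ` is entire and `Λ(s) = A^((s - i/2)/2) Γ_i(s) L(s)` for `Re s > (i - 1)/2` -/
def IsCompleted (g i : ℕ) (L Λ : ℂ → ℂ) : Prop :=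
  Differentiable ℂ Λ ∧ ∀ s : ℂ, ((i : ℝ) - 1) / 2 < s.re →
    Λ s = (A g i : ℂ) ^ ((s - (i : ℂ) / 2) / 2) * gammaFactor g i s * L s

/-! ### The Laguerre inequalities -/

/-- The `n`-th Laguerre expression of `Λ` at the point at height `t` of the line `Re s = c`: the
coefficient of `x^(2n)` in `|Λ(c + √-1 t + x)|²`, `x` real. -/
noncomputable def laguerre (c : ℝ) (Λ : ℂ → ℂ) (n : ℕ) (t : ℝ) : ℝ :=
  iteratedDeriv (2 * n) (fun x : ℝ => ‖Λ ((c : ℂ) + t * I + x)‖ ^ 2) 0 / ((2 * n).factorial : ℝ)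

/-- The Laguerre inequalities for `n ≥ q log 𝔠(t) + C b` hold strictly, and the Riemann hypothesis for
`Λ` (all zeros on the line `Re s = x`) is equivalent to the remaining ones. -/
structure Laguerre (q C x : ℝ) (b : ℕ) (𝔠 : ℝ → ℝ) (Λ : ℂ → ℂ) : Prop where
  positive : ∀ (n : ℕ) (t : ℝ), q * Real.log (𝔠 t) + C * b ≤ n → 0 < laguerre x Λ n t
  grh : (∀ s : ℂ, Λ s = 0 → s.re = x) ↔ ∀ (n : ℕ) (t : ℝ),
    (n : ℝ) < q * Real.log (𝔠 t) + C * b → 0 ≤ laguerre x Λ n t

/-- **The theorem.**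
* (I) For `0 ≤ w ≤ 1` and `η > 0` there is one constant `C₀ > 0` such that the statements `Laguerre` hold
  with the coefficient `(1+w)/4 + η` for the L-function of every `X` in every degree `i`, if it has the
  continuation and the functional equation (`w = 0` is the case of the expected weights at the primes of
  bad reduction).
* (II) For every `η > 0` they hold for `X = E^g`, `g` and `i` arbitrary, `i < 2g` odd, with the coefficient
  `1/4 + η` and one constant, unconditionally (the Betti number is `(2 * g).choose i`). -/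
theorem result :
    (∀ w η : ℝ, 0 ≤ w → w ≤ 1 → 0 < η → ∃ C₀ : ℝ, 0 < C₀ ∧
      ∀ (i : ℕ) (V : Cohomology i w) (A : ℝ) (r : ℕ) (Λ : ℂ → ℂ), V.Continued A r Λ →
        Laguerre ((1 + w) / 4 + η) C₀ (((i : ℝ) + 1) / 2) V.betti (V.analyticConductor A) Λ) ∧
    (∀ η : ℝ, 0 < η → ∃ C₀ : ℝ, 0 < C₀ ∧ ∀ g i : ℕ, Odd i → i < 2 * g →
      ∃ L Λ : ℂ → ℂ, IsHasseWeil g i L ∧ IsCompleted g i L Λ ∧
        (∀ s : ℂ, Λ (conj s) = conj (Λ s)) ∧
        (∃ r : ℕ, r ≤ 1 ∧ ∀ s : ℂ, Λ (i + 1 - s) = (-1) ^ r * Λ s) ∧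
        Laguerre (1 / 4 + η) C₀ (((i : ℝ) + 1) / 2) ((2 * g).choose i) (analyticConductor g i) Λ) := by
  have half : ∀ i : ℕ, (1 / 2 + (i : ℝ) / 2) = ((i : ℝ) + 1) / 2 := fun i => by ring
  refine ⟨fun w η hw0 hw1 hη => ?_, fun η hη => ?_⟩
  · obtain ⟨C, hC, H⟩ := Pool.Agent.Q12.HW.Lag.fin_ul Pool.Agent.Q12.HW.Eul.BE_nonneg
      (θ := w / 2) (by linarith) (by linarith) hη
    refine ⟨C, hC, fun i V A r Λ h => ?_⟩
    obtain ⟨κ, μ, L, hκ, hul, hcn⟩ := Pool.Agent.Q12.HW.CohL.norm hw0 hw1 (i := i) (h := V.hodge)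
      (a := V.plus) (b := V.minus) (P := V.P) V.betti_pos V.const (fun p hp => by
        by_cases hpN : p ∣ V.N
        · exact V.degree_bad p hp hpN
        · exact (V.degree_good p hp hpN).le) (fun p hp z hz => by
        by_cases hpN : p ∣ V.N
        · exact V.roots_bad p hp hpN z hz
        · rw [V.roots_good p hp hpN z hz]
          exact Real.rpow_le_rpow_of_exponent_le (by exact_mod_cast hp.one_le) (by linarith))
      h.one_le h.r_le h.entire h.order h.fe h.eq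
    obtain ⟨H1, H2⟩ := H _ _ _ _ _ hul
    have e : (1 + 2 * (w / 2)) / 4 = (1 + w) / 4 := by ring
    simp only [hcn, e] at H1 H2
    have hres := Pool.Agent.Q12.HW.Lag.res_shift (Λ := Λ) (c := (i : ℝ) / 2) hκ hul.slow.1
      (fun z => rfl) H1 H2
    rw [half] at hres
    exact ⟨hres.pos, hres.grh⟩
  · obtain ⟨C, hC, H⟩ := Pool.Agent.Q12.HW.Lag.fin_ul Pool.Agent.W355.UN.Bst_nonneg
      (θ := 0) le_rfl (by norm_num) hη
    refine ⟨C, hC, fun g i hi hg => ?_⟩
    obtain ⟨m, rfl⟩ := hi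
    obtain ⟨Λ, L, μ, hul, hcn, h0, h1, h2, h3⟩ := Pool.Agent.Q12.HW.Lag.base g m (by omega)
    refine ⟨fun s => Pool.Agent.W355.HW.LL0 g m (s - ((2 * m + 1 : ℕ) : ℂ) / 2), Λ,
      ⟨(Pool.Agent.W355.HW.LL0_diff g m).comp (differentiable_id.sub_const _),
        fun α β hαβ s hs => Pool.Agent.W355.HW.LL0_prod g m α β hαβ s hs⟩,
      ⟨h0, h1⟩, h2, h3, ?_⟩
    obtain ⟨H1, H2⟩ := H _ _ _ _ _ hul
    have e : (1 + 2 * (0 : ℝ)) / 4 = 1 / 4 := by norm_num
    simp only [hcn, e] at H1 H2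
    have hres := Pool.Agent.Q12.HW.Lag.res_shift (Λ := Λ) (c := ((2 * m + 1 : ℕ) : ℝ) / 2) one_pos
      hul.slow.1 (fun z => rfl) H1 H2
    rw [half] at hres
    exact ⟨hres.pos, hres.grh⟩

end Pool.Agent.Results.MP_7193be_nt.LaguerreAllVarieties
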