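import Pool.Agent.Q28.HW.Fin

/-!
# Zero density at the scale `1 / log T` for all Hasse-Weil L-functions of GL(2) type in odd degree

Let `X` be projective and smooth over `ℤ[1/N]` and `i` odd.  `Pool.Agent.Q28.HW.Cohomology i` is what enters of
`V = H^i(X)` in the Hasse-Weil L-function and its gamma factor: the Hodge numbers `h^{q, i-q}`, the polynomials
`P_p(T) ∈ ℤ[T]` (`P_i(X(p), T)` for `p ∤ N`, `det(1 - Frob_p T | H^i(X)^{I_p})` for `p ∣ N`) with their constant
terms and degrees and the weights: the roots have absolute value `p^{-i/2}` for `p ∤ N` (Deligne) and at least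
`p^{-i/2}` for `p ∣ N`.

`V` is of GL(2) type (`ModularType`) if its L-function is a product of L-functions of newforms: there are newforms
`f_1, ..., f_m` of any weights `k_j ≥ 2`, levels `N_j` and nebentypus `ψ_j` and integers `t_j`,
`k_j + 2 t_j = i + 1`, such that for all primes `p`
`P_p(T) = ∏_j (1 - a_j(p) p^{t_j} T + ψ_j(p) p^i T²)`,
and the Hodge numbers `h^{q, i-q}`, `2 q < i`, are the numbers of the `j` with `t_j = q`.  Examples:

* `i = 1`: the modular curves `X_0(N)`, `X_1(N)` and their quotients, all abelian varieties over `ℚ` of GL(2)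
  type (in particular the elliptic curves over `ℚ`), their products, and the curves whose jacobians are of this
  kind;
* every odd `i`: the powers of the elliptic curves over `ℚ` with complex multiplication;
* `i = 3`: the rigid Calabi-Yau threefolds over `ℚ` (weight four), and `i = w + 1` for the parts of the
  Kuga-Sato varieties.

We prove (a), (b) and the following step to (c), (d), unconditionally: for EVERY `c < 1` the number of zeros
of `Λ` with imaginary part in `(0, T]` and at distance at least `δ` from the line `Re s = (i+1)/2`, counted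
with multiplicity, is at most `C T ^ (1 - c δ) log T`, uniformly for `δ ≥ 0` and `T ≥ 2`.  So all but the
proportion `C e^(-c h)` of the zeros are within `h / log T` of the line.  (As `Λ` is real, the same holds for
the zeros with negative imaginary part.)

Proof.  The axioms `Frm` of the starting modules `Pool.Agent.Y671.GL` (project GD2: mollified mean squares of GL(2)
L-functions at the scale `1 / log T` through shifted convolution sums and Jutila's circle method) are checked for
newforms of any weight and nebentypus; the Ramanujan bound is deduced from the weights of `V`.  Then the density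
theorem of `Pool.Agent.Y24.GL` (helper24) is applied with mollifiers of length `T ^ κ`, every `κ < 1`.
-/

set_option autoImplicit false

open UpperHalfPlane MatrixGroups CongruenceSubgroup
open scoped ComplexConjugate

namespace Pool.Agent.Results.MP_7193be_nt.ZeroDensity

open Pool.Agent.Q28.HW (Cohomology ModularType IsHasseWeil IsCompleted)

/-- The zeros of `Λ` with imaginary part in `(0, T]` and distance at least `δ` from the line
`Re s = (i+1)/2`. -/
def Off (i : ℕ) (Λ : ℂ → ℂ) (δ T : ℝ) : Set ℂ :=
  {s | Λ s = 0 ∧ δ ≤ |s.re - ((i : ℝ) + 1) / 2| ∧ 0 < s.im ∧ s.im ≤ T}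

/-- The number of points of `B`, each counted with its multiplicity as a zero of `g`. -/
noncomputable def num (g : ℂ → ℂ) (B : Set ℂ) : ℕ := ∑ᶠ s ∈ B, analyticOrderNatAt g s

/-- **Main theorem.** Let `V = H^i(X)`, `i` odd, be of GL(2) type, with the newforms `f_1, ..., f_m`, `m ≥ 1`.
The Hasse-Weil L-function `L` and the completed function `Λ` exist, are entire and unique,
`Λ(i + 1 - s) = ± Λ(s)`, and for every `c < 1` there is `C > 0` such that for all `δ ≥ 0` and `T ≥ 2` at most
`C T ^ (1 - c δ) log T` zeros of `Λ` with imaginary part in `(0, T]`, counted with multiplicity, have a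
distance of at least `δ` from the line `Re s = (i+1)/2`. -/
theorem result (i : ℕ) (V : Cohomology i) (m : ℕ) (hm : 1 ≤ m) (N k t : Fin m → ℕ) [∀ j, NeZero (N j)]
    (ψ : (j : Fin m) → DirichletCharacter ℂ (N j))
    (f : (j : Fin m) → CuspForm (Gamma1 (N j) : Subgroup (GL (Fin 2) ℝ)) (k j : ℤ))
    (h : ModularType V N k t ψ f) :
    ∃ L Λ : ℂ → ℂ, IsHasseWeil V L ∧ (∀ L', IsHasseWeil V L' → L' = L) ∧
      IsCompleted V (∏ j, N j) L Λ ∧ (∀ Λ', IsCompleted V (∏ j, N j) L Λ' → Λ' = Λ) ∧
      (∃ ε : ℝ, (ε = 1 ∨ ε = -1) ∧ ∀ s : ℂ, Λ (i + 1 - s) = ε * Λ s) ∧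
      ∀ c : ℝ, c < 1 → ∃ C : ℝ, 0 < C ∧ ∀ δ T : ℝ, 0 ≤ δ → 2 ≤ T →
        (Off i Λ δ T).Finite ∧ (num Λ (Off i Λ δ T) : ℝ) ≤ C * T ^ (1 - c * δ) * Real.log T := by
  obtain ⟨L, Λ, Λ0, H, X, Z, v, c, hL, hΛ, hc, he, hfe, hcore⟩ := Pool.Agent.Q28.HW.hasse hm h
  have h1 := Pool.Agent.Q28.HW.off_of hm hcore hc ((i : ℝ) / 2) (Λ := Λ) (fun s => by
    rw [he]
    push_cast
    rfl)
  have e : (1 / 2 + (i : ℝ) / 2) = ((i : ℝ) + 1) / 2 := by ring
  rw [e] at h1
  exact ⟨L, Λ, hL, fun L' h' => Pool.Agent.Q28.HW.hw_unique hL h', hΛ,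
    fun Λ' h' => Pool.Agent.Q28.HW.completed_unique hΛ h', hfe, h1⟩

end Pool.Agent.Results.MP_7193be_nt.ZeroDensity
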